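import Pool.Agent.TH651.DB.Shrink

set_option autoImplicit false
open Finset
open scoped Pointwise

namespace Pool.Agent.Results.MP_626a77_co.DenseInBoxAnchored

open Pool.Agent.TH651.DB

/-- The conclusion of the polynomial Freiman-Ruzsa conjecture (with a box as convex body) for
every set `A` with `|A + A| ≤ K |A|` that contains a large piece `t₀ + ψ(S)`, where `S` is a
subset of density `≥ 1 / L` of a box-anchored set `D ⊆ ℤ^n`, with no bound on `n`. -/
theorem result {Γ : Type*} [AddCommGroup Γ] [DecidableEq Γ] (K L M : ℝ) (A : Finset Γ)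
    (hA : A.Nonempty) (hK : ((A + A).card : ℝ) ≤ K * (A.card : ℝ))
    (n : ℕ) (D S : Finset (Fin n → ℤ))
    (hD : ∀ x ∈ D, ∀ y : Fin n → ℤ,
      (∀ i, (0 ≤ y i ∧ y i ≤ x i) ∨ (x i ≤ y i ∧ y i ≤ 0)) → y ∈ D)
    (hSD : S ⊆ D) (hL : (D.card : ℝ) ≤ L * (S.card : ℝ))
    (ψ : (Fin n → ℤ) →+ Γ) (hψ : Set.InjOn ψ ((S + S : Finset (Fin n → ℤ)) : Set _))
    (t₀ : Γ) (hSA : ∀ s ∈ S, t₀ + ψ s ∈ A) (hM : (A.card : ℝ) ≤ M * (S.card : ℝ)) :
    ∃ (d : ℕ) (R : Fin d → ℕ) (B : Set (Fin d → ℝ)) (φ : (Fin d → ℤ) →+ Γ) (T : Finset Γ),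
      B = {x : Fin d → ℝ | ∀ i, |x i| ≤ (R i : ℝ) + 1 / 2} ∧
      (2 : ℝ) ^ d ≤ (4 * K * L * M) ^ 2 ∧
      Convex ℝ B ∧ IsCompact B ∧ (interior B).Nonempty ∧ (∀ x ∈ B, -x ∈ B) ∧
      {x : Fin d → ℤ | (fun i => (x i : ℝ)) ∈ B}.Finite ∧
      {x : Fin d → ℤ | (fun i => (x i : ℝ)) ∈ B}.ncard ≤ A.card ∧
      (T.card : ℝ) ≤ 48 * (4 * K * L * M) ^ 20 ∧
      ∀ a ∈ A, ∃ t ∈ T, ∃ x : Fin d → ℤ, (fun i => (x i : ℝ)) ∈ B ∧ a = t + φ x := by
  classical
  have hψs : ∀ x : Fin n → ℤ, ψ x = ∑ i, x i • ψ (Pi.single i 1) := by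
    intro x
    conv_lhs => rw [← Finset.univ_sum_single x]
    rw [map_sum]
    refine Finset.sum_congr rfl (fun i _ => ?_)
    rw [← map_zsmul]
    congr 1
    rw [← Pi.single_smul]
    simp
  have hinj : Set.InjOn (fun x : Fin n → ℤ => ∑ i, x i • ψ (Pi.single i 1))
      ((S + S : Finset (Fin n → ℤ)) : Set (Fin n → ℤ)) := by
    intro x hx y hy hxy
    apply hψ hx hy
    rw [hψs, hψs]
    exact hxy
  obtain ⟨-, d, w, N, -, T, hN2, hd, hNp, -, -, -, hT, hcov⟩ := final n D S hD hSD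
    (fun i => ψ (Pi.single i 1)) hinj A t₀ (fun x hx => by rw [← hψs]; exact hSA x hx) hA
    K L M hK hM hL
  have hAp : (0 : ℝ) < A.card := by exact_mod_cast hA.card_pos
  obtain ⟨R, hRN, hRV, X, hX, hcovX⟩ := shrink A.card hA.card_pos d (fun i => N i - 1)
  set φ : (Fin d → ℤ) →+ Γ :=
    { toFun := fun x => ∑ i, x i • w i
      map_zero' := by simp
      map_add' := by intro x y; simp [add_smul, Finset.sum_add_distrib] } with hφ
  have hφa : ∀ x : Fin d → ℤ, φ x = ∑ i, x i • w i := fun x => rfl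
  have hB0 : ∀ x : Fin d → ℤ, (fun i => (x i : ℝ)) ∈ {x : Fin d → ℝ | ∀ i, |x i| ≤ (R i : ℝ) + 1 / 2}
      ↔ ∀ i, |x i| ≤ R i := by
    intro x
    rw [Set.mem_ofPred_eq]
    refine forall_congr' (fun i => ?_)
    rw [← Int.cast_abs]
    constructor
    · intro h
      have h1 : ((|x i| : ℤ) : ℝ) < (((R i : ℤ) + 1 : ℤ) : ℝ) := by
        push_cast
        push_cast at h
        linarith
      have h2 := Int.cast_lt.mp h1
      omega
    · intro h
      have h1 : ((|x i| : ℤ) : ℝ) ≤ ((R i : ℤ) : ℝ) := by exact_mod_cast h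
      push_cast at h1 ⊢
      linarith
  have hset : {x : Fin d → ℤ | (fun i => (x i : ℝ)) ∈
      {x : Fin d → ℝ | ∀ i, |x i| ≤ (R i : ℝ) + 1 / 2}}
      = ((Fintype.piFinset (fun i => Finset.Icc (-(R i : ℤ)) (R i)) : Finset (Fin d → ℤ)) :
        Set (Fin d → ℤ)) := by
    ext x
    rw [Set.mem_ofPred_eq, hB0, Finset.mem_coe, Fintype.mem_piFinset]
    refine forall_congr' (fun i => ?_)
    rw [Finset.mem_Icc, abs_le]
  have hcard : (Fintype.piFinset (fun i => Finset.Icc (-(R i : ℤ)) (R i))).card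
      = ∏ i, (2 * R i + 1) := by
    rw [Fintype.card_piFinset]
    refine Finset.prod_congr rfl (fun i _ => ?_)
    rw [Int.card_Icc]
    omega
  have hpi : {x : Fin d → ℝ | ∀ i, |x i| ≤ (R i : ℝ) + 1 / 2}
      = Set.pi Set.univ (fun i => Set.Icc (-((R i : ℝ) + 1 / 2)) ((R i : ℝ) + 1 / 2)) := by
    ext x
    constructor
    · intro h i _
      exact Set.mem_Icc.mpr (abs_le.mp (h i))
    · intro h i
      exact abs_le.mpr (Set.mem_Icc.mp (h i (Set.mem_univ i)))
  refine ⟨d, R, {x : Fin d → ℝ | ∀ i, |x i| ≤ (R i : ℝ) + 1 / 2}, φ,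
    (T ×ˢ X).image (fun p => p.1 + φ p.2), rfl, hd, ?_, ?_, ?_, ?_, ?_, ?_, ?_, ?_⟩
  · -- convex
    rw [hpi]
    exact convex_pi (fun i _ => convex_Icc _ _)
  · rw [hpi]
    exact isCompact_univ_pi (fun i => isCompact_Icc)
  · refine ⟨0, mem_interior.mpr ⟨Metric.ball 0 (1 / 2), ?_, Metric.isOpen_ball,
      Metric.mem_ball_self (by norm_num)⟩⟩
    intro x hx i
    rw [mem_ball_zero_iff] at hx
    have h1 := norm_le_pi_norm x i
    rw [Real.norm_eq_abs] at h1
    have h2 : (0 : ℝ) ≤ R i := Nat.cast_nonneg _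
    linarith
  · intro x hx i
    rw [Pi.neg_apply, abs_neg]
    exact hx i
  · rw [hset]
    exact Finset.finite_toSet _
  · rw [hset, Set.ncard_coe_finset, hcard]
    exact hRV
  · -- the number of translates
    have hSpos : (0 : ℝ) < S.card := by
      rcases Nat.eq_zero_or_pos S.card with h | h
      · rw [h, Nat.cast_zero, mul_zero] at hM
        linarith
      · exact_mod_cast h
    have hM0 : 0 ≤ M := by
      by_contra hc
      push Not at hc
      nlinarith
    have hK0 : 0 ≤ K := by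
      by_contra hc
      push Not at hc
      have : (0 : ℝ) ≤ (A + A).card := Nat.cast_nonneg _
      nlinarith
    have hL0 : 0 ≤ L := by
      by_contra hc
      push Not at hc
      have : (0 : ℝ) ≤ D.card := Nat.cast_nonneg _
      nlinarith
    have hK1 : 1 ≤ K := by
      have h1 : (A.card : ℝ) ≤ ((A + A).card : ℝ) := by
        exact_mod_cast Finset.card_le_card_add_right hA
      by_contra hc
      push Not at hc
      nlinarith
    have hL1 : 1 ≤ L := by
      have h1 : (S.card : ℝ) ≤ D.card := by exact_mod_cast Finset.card_le_card hSD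
      by_contra hc
      push Not at hc
      nlinarith
    have hM1 : 1 ≤ M := by
      have h1 : (S.card : ℝ) ≤ A.card := by
        have : S.card ≤ A.card := Finset.card_le_card_of_injOn (fun x => t₀ + ψ x)
          (fun x hx => hSA x hx) (by
            intro x hx y hy hxy
            have h2 : ψ x = ψ y := add_left_cancel hxy
            have h3 : x + x = x + y := by
              apply hψ
              · exact Finset.mem_coe.mpr (Finset.add_mem_add (Finset.mem_coe.mp hx)
                  (Finset.mem_coe.mp hx))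
              · exact Finset.mem_coe.mpr (Finset.add_mem_add (Finset.mem_coe.mp hx)
                  (Finset.mem_coe.mp hy))
              · rw [map_add, map_add, h2]
            exact add_left_cancel h3)
        exact_mod_cast this
      by_contra hc
      push Not at hc
      nlinarith
    set Q : ℝ := 4 * K * L * M with hQ
    have hKLM : 1 ≤ K * L * M := by
      have : 1 ≤ K * L := by nlinarith
      nlinarith
    have hQ4 : 4 ≤ Q := by rw [hQ]; nlinarith
    -- volume of the large box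
    have hvol : ((∏ i, (2 * (N i - 1) + 1) : ℕ) : ℝ) ≤ Q ^ 2 * L * A.card := by
      have h1 : ∏ i, (2 * (N i - 1) + 1) ≤ 2 ^ d * ∏ i, N i := by
        have h2 : (2 : ℕ) ^ d = ∏ _i : Fin d, 2 := by simp
        rw [h2, ← Finset.prod_mul_distrib]
        apply Finset.prod_le_prod'
        intro i _
        have := hN2 i
        omega
      calc ((∏ i, (2 * (N i - 1) + 1) : ℕ) : ℝ) ≤ ((2 ^ d * ∏ i, N i : ℕ) : ℝ) := by
            exact_mod_cast h1
        _ = 2 ^ d * ((∏ i, N i : ℕ) : ℝ) := by push_cast; ring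
        _ ≤ Q ^ 2 * (L * A.card) :=
            mul_le_mul hd hNp (Nat.cast_nonneg _) (by positivity)
        _ = _ := by ring
    have hX' : (X.card : ℝ) ≤ 6 * (Q ^ 2 * L) := by
      have h1 : (X.card : ℝ) * A.card
          ≤ 6 * ((max A.card (∏ i, (2 * (N i - 1) + 1)) : ℕ) : ℝ) := by
        exact_mod_cast hX
      have h2 : ((max A.card (∏ i, (2 * (N i - 1) + 1)) : ℕ) : ℝ) ≤ Q ^ 2 * L * A.card := by
        rw [Nat.cast_max]
        apply max_le _ hvol
        have h3 : (1 : ℝ) ≤ Q ^ 2 * L := by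
          have : (1 : ℝ) ≤ Q ^ 2 := one_le_pow₀ (by linarith)
          nlinarith
        nlinarith
      have h3 : (X.card : ℝ) * A.card ≤ (6 * (Q ^ 2 * L)) * A.card := by
        calc _ ≤ _ := h1
          _ ≤ 6 * (Q ^ 2 * L * A.card) := mul_le_mul_of_nonneg_left h2 (by norm_num)
          _ = _ := by ring
      exact le_of_mul_le_mul_right h3 hAp
    have h1 : (((T ×ˢ X).image (fun p => p.1 + φ p.2)).card : ℝ) ≤ T.card * X.card := by
      have : ((T ×ˢ X).image (fun p => p.1 + φ p.2)).card ≤ T.card * X.card := by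
        refine Finset.card_image_le.trans ?_
        rw [Finset.card_product]
      exact_mod_cast this
    calc (((T ×ˢ X).image (fun p => p.1 + φ p.2)).card : ℝ) ≤ T.card * X.card := h1
      _ ≤ (32 * K * M * Q ^ 17) * (6 * (Q ^ 2 * L)) :=
          mul_le_mul hT hX' (Nat.cast_nonneg _) (by positivity)
      _ = 48 * ((4 * K * L * M) * Q ^ 19) := by ring
      _ = _ := by rw [← hQ]; ring
  · intro a ha
    obtain ⟨t, ht, c, hc, e⟩ := hcov a ha
    obtain ⟨x, hx, hxc⟩ := hcovX c (fun i => by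
      have h1 := hc i
      have h2 := hN2 i
      omega)
    refine ⟨t + φ x, Finset.mem_image.mpr ⟨(t, x), Finset.mem_product.mpr ⟨ht, hx⟩, rfl⟩,
      c - x, (hB0 _).mpr hxc, ?_⟩
    rw [e, ← hφa, map_sub]
    abel

end Pool.Agent.Results.MP_626a77_co.DenseInBoxAnchored
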