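import Pool.Agent.TH198.DC.Main

/-!
# Sets that are dense in a convex set, in arbitrary dimension

The Polynomial Freiman-Ruzsa conjecture for finite sets `S` of lattice points of `ℤ ^ n`, `n`
arbitrary, such that some convex set containing `S` has at most `L |S|` lattice points, and for all
images of such sets under affine maps injective on `S + S`.
-/

set_option autoImplicit false
open scoped Pointwise

namespace Pool.Agent.Results.MP_626a77_co.DenseInConvexHull

/-- `C` is any convex set with finitely many lattice points, at most `L |S|`, among them all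
elements of `S`; `A` is the image of `S` under an affine map `s ↦ b + φ s` that is injective on
`S + S`, and `|A + A| ≤ K |A|`. Then `A` is covered by `L (2 K) ^ 4200` translates of a centred
convex progression of dimension at most `480 log K + 1` and volume at most `|A|`. -/
theorem result {Γ : Type*} [AddCommGroup Γ] [DecidableEq Γ] (K L : ℝ) (n : ℕ)
    (S : Finset (Fin n → ℤ)) (hS : S.Nonempty)
    (C : Set (Fin n → ℝ)) (hC : Convex ℝ C) (hSC : ∀ s ∈ S, (fun i => (s i : ℝ)) ∈ C)
    (hfin : {x : Fin n → ℤ | (fun i => (x i : ℝ)) ∈ C}.Finite)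
    (hL : ({x : Fin n → ℤ | (fun i => (x i : ℝ)) ∈ C}.ncard : ℝ) ≤ L * (S.card : ℝ))
    (φ : (Fin n → ℤ) →+ Γ) (b : Γ) (hφ : Set.InjOn φ ((S + S : Finset (Fin n → ℤ)) : Set _))
    (A : Finset Γ) (hA : A = S.image fun s => b + φ s)
    (hK : ((A + A).card : ℝ) ≤ K * (A.card : ℝ)) :
    ∃ (d : ℕ) (B : Set (Fin d → ℝ)) (ψ : (Fin d → ℤ) →+ Γ) (T : Finset Γ),
      (d : ℝ) ≤ 480 * Real.log K + 1 ∧
      Convex ℝ B ∧ IsCompact B ∧ (interior B).Nonempty ∧ (∀ x ∈ B, -x ∈ B) ∧
      {x : Fin d → ℤ | (fun i => (x i : ℝ)) ∈ B}.Finite ∧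
      {x : Fin d → ℤ | (fun i => (x i : ℝ)) ∈ B}.ncard ≤ A.card ∧
      (T.card : ℝ) ≤ L * (2 * K) ^ 4200 ∧
      ∀ a ∈ A, ∃ t ∈ T, ∃ x : Fin d → ℤ, (fun i => (x i : ℝ)) ∈ B ∧ a = t + ψ x := by
  classical
  obtain ⟨s0, hs0⟩ := hS
  have hinj : Set.InjOn (fun s => b + φ s) (S : Set (Fin n → ℤ)) := by
    intro x hx y hy hxy
    have h1 : φ x = φ y := add_left_cancel (hxy : b + φ x = b + φ y)
    have h2 : φ (s0 + x) = φ (s0 + y) := by rw [map_add, map_add, h1]
    have h3 : s0 + x = s0 + y :=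
      hφ (Finset.mem_coe.2 (Finset.add_mem_add hs0 hx)) (Finset.mem_coe.2 (Finset.add_mem_add hs0 hy)) h2
    exact add_left_cancel h3
  have hAc : A.card = S.card := by rw [hA, Finset.card_image_of_injOn hinj]
  have hSS : (S + S : Finset (Fin n → ℤ)).card ≤ (A + A).card := by
    refine Finset.card_le_card_of_injOn (fun z => b + b + φ z) ?_ ?_
    · intro z hz
      obtain ⟨x, hx, y, hy, rfl⟩ := Finset.mem_add.1 (Finset.mem_coe.1 hz)
      rw [Finset.mem_coe]
      show b + b + φ (x + y) ∈ A + A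
      rw [map_add, show b + b + (φ x + φ y) = (b + φ x) + (b + φ y) by abel]
      refine Finset.add_mem_add ?_ ?_
      · rw [hA]
        exact Finset.mem_image_of_mem _ hx
      · rw [hA]
        exact Finset.mem_image_of_mem _ hy
    · intro z hz w hw hzw
      exact hφ hz hw (add_left_cancel (hzw : b + b + φ z = b + b + φ w))
  have hKS : ((S + S : Finset (Fin n → ℤ)).card : ℝ) ≤ K * (S.card : ℝ) := by
    have h1 : ((S + S : Finset (Fin n → ℤ)).card : ℝ) ≤ (A + A).card := by exact_mod_cast hSS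
    rw [← hAc]
    exact h1.trans hK
  obtain ⟨d, ψ, B, X, hd, -, hB, hBc, hX, hcov⟩ :=
    TH198.DC.core (L := L) ⟨s0, hs0⟩ hKS hC hfin hSC hL
  refine ⟨d, B, φ.comp ψ, X.image fun x => b + φ x, hd, hB.conv, hB.comp, hB.inter, hB.symm,
    hB.fin1, hBc.trans hAc.ge, ?_, ?_⟩
  · have h1 : ((X.image fun x => b + φ x).card : ℝ) ≤ X.card := by
      exact_mod_cast Finset.card_image_le
    exact h1.trans hX
  · intro a ha
    rw [hA] at ha
    obtain ⟨s, hs, rfl⟩ := Finset.mem_image.1 ha
    obtain ⟨x, hx, z, hz, rfl⟩ := hcov s hs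
    refine ⟨b + φ x, Finset.mem_image_of_mem _ hx, z, hz, ?_⟩
    rw [map_add, AddMonoidHom.comp_apply, add_assoc]

end Pool.Agent.Results.MP_626a77_co.DenseInConvexHull
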