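import Pool.Agent.TH893.PP.Main
import Pool.Agent.TH893.PP.Shrink

/-!
# Freiman-Ruzsa for sets commensurable with a Cartesian product

Let `D 0, ..., D (n-1)` be finite sets in a torsion-free abelian group `Z`, `n` arbitrary, with
`|D i + D i| ≤ c i |D i|` and `c i ≤ C`.  Let `A` be a finite set in an abelian group `Γ` with
`|A + A| ≤ K |A|` that is covered by at most `L` translates of `ψ (∏ D i)`, where
`∏ |D i| ≤ L |A|` and the homomorphism `ψ : Z ^ n → Γ` is injective on `∏ D i + ∏ D i`.  Put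
`W = 512 K ^ 8 L ^ 10 ∏ c i`.  Then `A` is covered by `W ^ (17500 (1 + log (1 + log (2 C))))`
translates of a centred box of rank at most `300 log W` and volume at most `|A|`.  At most
`log (512 K ^ 8 L ^ 10) / log 2` of the sets `D i` have more than one element, so for fixed `C` the
bounds are polynomial in `K` and `L`.
-/

set_option autoImplicit false

namespace Pool.Agent.Results.MP_626a77_co.DenseInProducts

open Finset
open scoped Pointwise

/-- **Freiman-Ruzsa for sets commensurable with a Cartesian product.** -/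
theorem result {Z Γ : Type*} [AddCommGroup Z] [DecidableEq Z] [AddCommGroup Γ] [DecidableEq Γ]
    (htf : ∀ (m : ℕ) (x : Z), m ≠ 0 → m • x = 0 → x = 0)
    (K L C : ℝ) (A : Finset Γ) (hA : A.Nonempty)
    (hK : ((A + A).card : ℝ) ≤ K * (A.card : ℝ))
    (n : ℕ) (D : Fin n → Finset Z) (c : Fin n → ℝ)
    (hc : ∀ i, ((D i + D i).card : ℝ) ≤ c i * ((D i).card : ℝ))
    (hC : 1 ≤ C) (hcC : ∀ i, c i ≤ C)
    (hL : ((∏ i, (D i).card : ℕ) : ℝ) ≤ L * (A.card : ℝ))
    (ψ : (Fin n → Z) →+ Γ)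
    (hψ : Set.InjOn ψ
      ((Fintype.piFinset D + Fintype.piFinset D : Finset (Fin n → Z)) : Set (Fin n → Z)))
    (X : Finset Γ) (hX : (X.card : ℝ) ≤ L)
    (hcov : ∀ a ∈ A, ∃ x ∈ X, ∃ s : Fin n → Z, (∀ i, s i ∈ D i) ∧ a = x + ψ s) :
    (2 : ℝ) ^ (univ.filter (fun i => 2 ≤ (D i).card)).card ≤ 512 * K ^ 8 * L ^ 10 ∧
    ∃ (d : ℕ) (v : Fin d → Γ) (M : Fin d → ℕ) (T : Finset Γ),
      (d : ℝ) ≤ 300 * Real.log (512 * K ^ 8 * L ^ 10 * ∏ i, c i) ∧
      ∏ i, (2 * M i + 1) ≤ A.card ∧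
      (T.card : ℝ) ≤ (512 * K ^ 8 * L ^ 10 * ∏ i, c i) ^
        (17500 * (1 + Real.log (1 + Real.log (2 * C)))) ∧
      ∀ x ∈ A, ∃ t ∈ T, ∃ k : Fin d → ℤ, (∀ i, |k i| ≤ M i) ∧ x = t + ∑ i, k i • v i := by
  classical
  obtain ⟨hfac, r, v, N, T, h1, h2, h3, h4, h5, _⟩ := Pool.Agent.TH893.PP.mainProd htf K L C A hA hK
    n D c hc hC hcC hL ψ hψ X hX hcov
  have hAp : (0 : ℝ) < A.card := by exact_mod_cast hA.card_pos
  obtain ⟨a₁, ha₁⟩ := hA
  obtain ⟨x₁, hx₁, s₁, hs₁, _⟩ := hcov a₁ ha₁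
  have hA : A.Nonempty := ⟨a₁, ha₁⟩
  have hXn : X.Nonempty := ⟨x₁, hx₁⟩
  have hL1 : 1 ≤ L := by
    have : (1 : ℝ) ≤ X.card := by exact_mod_cast hXn.card_pos
    linarith
  have hK1 : 1 ≤ K := by
    have h1 : (A.card : ℝ) ≤ ((A + A).card : ℝ) := by
      exact_mod_cast card_le_card_add_left hA
    nlinarith
  have hc1 : ∀ i, 1 ≤ c i := by
    intro i
    have hDn : (D i).Nonempty := ⟨s₁ i, hs₁ i⟩
    have h1 : ((D i).card : ℝ) ≤ ((D i + D i).card : ℝ) := by
      exact_mod_cast card_le_card_add_left hDn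
    have h2 : (0 : ℝ) < (D i).card := by exact_mod_cast hDn.card_pos
    have h3 := hc i
    nlinarith
  have hprodc : 1 ≤ ∏ i, c i := by
    have : ∏ i : Fin n, (1 : ℝ) ≤ ∏ i, c i :=
      prod_le_prod (fun i _ => zero_le_one) (fun i _ => hc1 i)
    simpa using this
  set W : ℝ := 512 * K ^ 8 * L ^ 10 * ∏ i, c i with hW
  have hK8 : 1 ≤ K ^ 8 := one_le_pow₀ hK1
  have hL8 : 1 ≤ L ^ 8 := one_le_pow₀ hL1
  have hWL : 3 * L ^ 2 ≤ W := by
    calc 3 * L ^ 2 ≤ 512 * 1 * (1 * L ^ 2) * 1 := by nlinarith [sq_nonneg L]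
      _ ≤ 512 * K ^ 8 * (L ^ 8 * L ^ 2) * ∏ i, c i := by gcongr
      _ = W := by rw [hW]; ring
  have hW1 : 1 ≤ W := by nlinarith
  have hWp : 0 < W := by linarith
  obtain ⟨M, m1, m2, m3⟩ := Pool.Agent.TH893.PP.shrink N h2 L hL1
  refine ⟨hfac, r, v, M, (T ×ˢ Fintype.piFinset
    (fun i => range ((N i - 1) / (2 * M i + 1) + 1))).image
    (fun p => p.1 + ∑ i, (p.2 i * (2 * M i + 1) + M i) • v i), h1, ?_, ?_, ?_⟩
  · rcases m3 with m3 | m3
    · have hr : L * ((∏ i, (2 * M i + 1) : ℕ) : ℝ) ≤ L * (A.card : ℝ) := m3.trans h3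
      have := le_of_mul_le_mul_left hr (by linarith)
      exact_mod_cast this
    · rw [m3]
      exact hA.card_pos
  · set Tc : ℕ := ((T ×ˢ Fintype.piFinset
      (fun i => range ((N i - 1) / (2 * M i + 1) + 1))).image
      (fun p => p.1 + ∑ i, (p.2 i * (2 * M i + 1) + M i) • v i)).card with hTc
    have q1 : (Tc : ℝ) ≤ T.card * ((∏ i, ((N i - 1) / (2 * M i + 1) + 1) : ℕ) : ℝ) := by
      have : Tc ≤ T.card * ∏ i, ((N i - 1) / (2 * M i + 1) + 1) := by
        refine card_image_le.trans ?_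
        rw [card_product, Fintype.card_piFinset]
        simp only [card_range]
        exact le_refl _
      exact_mod_cast this
    have hPp : (0 : ℝ) < ((∏ i, (2 * M i + 1) : ℕ) : ℝ) := by
      exact_mod_cast prod_pos (fun i _ => by omega)
    have q2 : ((∏ i, ((N i - 1) / (2 * M i + 1) + 1) : ℕ) : ℝ) ≤ 3 * 4 ^ r * L := by
      have e1 : (∏ i, ((N i - 1) / (2 * M i + 1) + 1)) * ∏ i, (2 * M i + 1)
          ≤ 2 ^ r * ∏ i, N i := by
        rw [← prod_mul_distrib]
        have e2 : 2 ^ r * ∏ i, N i = ∏ i, (2 * N i) := by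
          rw [prod_mul_distrib, prod_const, card_univ, Fintype.card_fin]
        rw [e2]
        apply prod_le_prod (fun i _ => Nat.zero_le _)
        intro i _
        have e3 : (N i - 1) / (2 * M i + 1) * (2 * M i + 1) ≤ N i - 1 := Nat.div_mul_le_self _ _
        have e4 := m1 i
        rw [add_mul, one_mul]
        omega
      have e5 : ((∏ i, ((N i - 1) / (2 * M i + 1) + 1) : ℕ) : ℝ)
          * ((∏ i, (2 * M i + 1) : ℕ) : ℝ) ≤ 2 ^ r * ((∏ i, N i : ℕ) : ℝ) := by
        exact_mod_cast e1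
      have e6 : ((∏ i, ((N i - 1) / (2 * M i + 1) + 1) : ℕ) : ℝ)
          * ((∏ i, (2 * M i + 1) : ℕ) : ℝ) ≤ (3 * 4 ^ r * L) * ((∏ i, (2 * M i + 1) : ℕ) : ℝ) := by
        refine e5.trans ?_
        calc (2 : ℝ) ^ r * ((∏ i, N i : ℕ) : ℝ)
            ≤ 2 ^ r * (3 * 2 ^ r * L * ((∏ i, (2 * M i + 1) : ℕ) : ℝ)) :=
              mul_le_mul_of_nonneg_left m2 (by positivity)
          _ = 3 * (2 * 2) ^ r * L * ((∏ i, (2 * M i + 1) : ℕ) : ℝ) := by rw [mul_pow]; ring
          _ = _ := by norm_num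
      exact le_of_mul_le_mul_right e6 hPp
    have q3 : (4 : ℝ) ^ r ≤ W ^ (420 : ℝ) := by
      rw [Real.rpow_def_of_pos hWp]
      have e1 : (4 : ℝ) ^ r = Real.exp (Real.log 4 * r) := by
        rw [← Real.rpow_natCast, Real.rpow_def_of_pos (by norm_num)]
      rw [e1]
      apply Real.exp_le_exp.mpr
      have e2 : Real.log 4 = 2 * Real.log 2 := by
        rw [show (4 : ℝ) = 2 ^ 2 by norm_num, Real.log_pow]
        norm_num
      have e3 := Real.log_two_lt_d9
      have e4 : 0 < Real.log 2 := Real.log_pos (by norm_num)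
      have e5 : 0 ≤ Real.log W := Real.log_nonneg hW1
      calc Real.log 4 * r ≤ Real.log 4 * (300 * Real.log W) :=
            mul_le_mul_of_nonneg_left h1 (by rw [e2]; positivity)
        _ = (600 * Real.log 2) * Real.log W := by rw [e2]; ring
        _ ≤ 420 * Real.log W := mul_le_mul_of_nonneg_right (by linarith) e5
        _ = _ := by ring
    set E : ℝ := 17000 * (1 + Real.log (1 + Real.log (2 * C))) with hE
    have hWE : 0 ≤ W ^ E := Real.rpow_nonneg hWp.le _
    calc (Tc : ℝ) ≤ T.card * ((∏ i, ((N i - 1) / (2 * M i + 1) + 1) : ℕ) : ℝ) := q1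
      _ ≤ (L * W ^ E) * (3 * W ^ (420 : ℝ) * L) := by
          apply mul_le_mul h4 _ (Nat.cast_nonneg _) (by positivity)
          refine q2.trans ?_
          gcongr
      _ = (3 * L ^ 2) * (W ^ E * W ^ (420 : ℝ)) := by ring
      _ ≤ W ^ (1 : ℝ) * (W ^ E * W ^ (420 : ℝ)) := by
          rw [Real.rpow_one]
          exact mul_le_mul_of_nonneg_right hWL (by positivity)
      _ = W ^ (1 + (E + 420)) := by
          rw [← Real.rpow_add hWp, ← Real.rpow_add hWp]
      _ ≤ W ^ (17500 * (1 + Real.log (1 + Real.log (2 * C)))) := by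
          apply Real.rpow_le_rpow_of_exponent_le hW1
          have e1 : 0 ≤ Real.log (2 * C) := Real.log_nonneg (by linarith)
          have e2 : 0 ≤ Real.log (1 + Real.log (2 * C)) := Real.log_nonneg (by linarith)
          rw [hE]
          linarith
  · intro x hx
    obtain ⟨t, ht, m, hm, hxt⟩ := h5 x hx
    refine ⟨t + ∑ i, (m i / (2 * M i + 1) * (2 * M i + 1) + M i) • v i,
      mem_image.mpr ⟨(t, fun i => m i / (2 * M i + 1)), mem_product.mpr ⟨ht, ?_⟩, rfl⟩,
      fun i => ((m i % (2 * M i + 1) : ℕ) : ℤ) - (M i : ℤ), ?_, ?_⟩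
    · refine Fintype.mem_piFinset.mpr (fun i => mem_range.mpr ?_)
      have : m i / (2 * M i + 1) ≤ (N i - 1) / (2 * M i + 1) :=
        Nat.div_le_div_right (by have := hm i; omega)
      simp only
      omega
    · intro i
      have : m i % (2 * M i + 1) < 2 * M i + 1 := Nat.mod_lt _ (by omega)
      have e : |((m i % (2 * M i + 1) : ℕ) : ℤ) - (M i : ℤ)| ≤ M i := by
        rw [abs_le]
        constructor <;> omega
      exact e
    · rw [hxt, add_assoc, ← sum_add_distrib]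
      congr 1
      apply sum_congr rfl
      intro i _
      rw [← natCast_zsmul, ← natCast_zsmul, ← add_zsmul]
      congr 1
      have := Nat.div_add_mod (m i) (2 * M i + 1)
      have e1 : (2 * M i + 1) * (m i / (2 * M i + 1)) = m i / (2 * M i + 1) * (2 * M i + 1) :=
        mul_comm _ _
      rw [e1] at this
      push_cast
      have e2 : ((m i : ℕ) : ℤ) = ((m i / (2 * M i + 1) * (2 * M i + 1) : ℕ) : ℤ)
          + ((m i % (2 * M i + 1) : ℕ) : ℤ) := by exact_mod_cast this.symm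
      push_cast at e2
      linarith

end Pool.Agent.Results.MP_626a77_co.DenseInProducts
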