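import Pool.Agent.TH468.IG.Gap

/-!
# Iterated sumsets of integers and generalised arithmetic progressions

The starting file NearPFRInt covers a set of integers with `|A + A| ≤ K |A|` by `K ^ O(log log K)`
translates of a convex progression. By Lovett and Regev, generalised arithmetic progressions (boxes)
cannot replace convex progressions in the conjectured statement. We show that they can, and with
polynomial bounds, if the hypothesis concerns the `n`-fold sumset for some `n ≥ (log 2L) ^ (1 / k)`,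
`k` fixed.
-/

set_option autoImplicit false
open scoped Pointwise

namespace Pool.Agent.Results.MP_626a77_co.IteratedProgressions

/-- Let `Γ` be the group of integers, or any torsion-free abelian group. If the `n`-fold sumset of
the finite nonempty set `A` has at most `L |A|` elements, where `n ≥ 2` and `log (2 L) ≤ n ^ k`,
then `A` is covered by `(2 L) ^ (152000 k)` translates of a progression
`{∑ c i • v i : |c i| ≤ M i}` of rank at most `1100 (1 + log (2 L) / log n)` and volume
`∏ (2 M i + 1) ≤ |A|`. -/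
theorem result {Γ : Type*} [AddCommGroup Γ] [DecidableEq Γ]
    (htf : ∀ (m : ℕ) (x : Γ), m ≠ 0 → m • x = 0 → x = 0)
    (k n : ℕ) (hk : 1 ≤ k) (hn : 2 ≤ n) (L : ℝ) (A : Finset Γ) (hA : A.Nonempty)
    (hL : (((Fintype.piFinset fun _ : Fin n => A).image fun f => ∑ i, f i).card : ℝ) ≤
      L * (A.card : ℝ))
    (hkn : Real.log (2 * L) ≤ (n : ℝ) ^ k) :
    ∃ (d : ℕ) (v : Fin d → Γ) (M : Fin d → ℕ) (T : Finset Γ),
      (d : ℝ) ≤ 1100 * (1 + Real.log (2 * L) / Real.log n) ∧
      ∏ i, (2 * M i + 1) ≤ A.card ∧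
      (T.card : ℝ) ≤ (2 * L) ^ (152000 * k) ∧
      ∀ a ∈ A, ∃ t ∈ T, ∃ c : Fin d → ℤ, (∀ i, |c i| ≤ M i) ∧ a = t + ∑ i, c i • v i := by
  obtain ⟨d, v, M, H, T, hd, hH, hvol, hT, hcov⟩ :=
    Pool.Agent.TH468.IG.iterated_gap hk hn hA hL hkn
  have hHbot : ∀ h ∈ H, h = 0 := by
    intro h hh
    have h1 : Nat.card H • (⟨h, hh⟩ : H) = 0 := card_nsmul_eq_zero'
    have h2 : Nat.card H • h = 0 := by
      have h3 := congrArg H.subtype h1
      rw [map_nsmul, map_zero] at h3
      exact h3
    exact htf _ h Nat.card_pos.ne' h2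
  have hHcard : Nat.card H = 1 := by
    rw [Nat.card_eq_one_iff_unique]
    refine ⟨⟨fun a b => Subtype.ext ?_⟩, ⟨0⟩⟩
    rw [hHbot a.1 a.2, hHbot b.1 b.2]
  rw [hHcard, mul_one] at hvol
  refine ⟨d, v, M, T, hd, hvol, hT, fun a ha => ?_⟩
  obtain ⟨t, ht, c, hc, h, hh, e⟩ := hcov a ha
  refine ⟨t, ht, c, hc, ?_⟩
  rw [e, hHbot h hh, add_zero]

end Pool.Agent.Results.MP_626a77_co.IteratedProgressions
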